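import Pool.Agent.Helper54.CG.Goals
import Pool.Agent.Helper83.Cusp.Vec

/-!
# Packet CG-P2ab (MP_c70db9_ag): homogeneity of the plane curve, cusps over cusps
-/

namespace Pool.Agent.Helper7.CG.P2ab

open MvPolynomial Pool.Agent.Helper16.Cusp Pool.Agent.Helper54.CG

/-! ### homogeneity -/

theorem ta : Pool.Agent.Helper54.CG.G_P2a := by
  intro F n l hF
  have e0 : (X 0 : R).IsHomogeneous 1 := isHomogeneous_X ℂ 0
  have e1 : (X 2 ^ 2 + C l * X 1 ^ 2 : R).IsHomogeneous 2 := by
    have a1 : (X 2 ^ 2 : R).IsHomogeneous 2 := by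
      simpa using (isHomogeneous_X ℂ (2 : Fin 3)).pow 2
    have a2 : (C l * X 1 ^ 2 : R).IsHomogeneous 2 := by
      have := (isHomogeneous_C (Fin 3) l).mul ((isHomogeneous_X ℂ (1 : Fin 3)).pow 2)
      simpa using this
    exact a1.add a2
  have e2 : (X 1 : R).IsHomogeneous 1 := isHomogeneous_X ℂ 1
  rw [dbl]
  conv_lhs => rw [F.as_sum]
  rw [map_sum]
  refine IsHomogeneous.sum _ _ _ fun d hd => ?_
  have hw := hF (mem_support_iff.mp hd)
  rw [Finsupp.weight_apply, Finsupp.sum_fintype _ _ (fun _ => by simp),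
    Fin.sum_univ_three] at hw
  rw [aeval_monomial, Finsupp.prod_fintype _ _ (fun i => by simp), Fin.prod_univ_three]
  have hn : 0 + (1 * d 0 + 2 * d 1 + 1 * d 2) = n := by
    simp [wt] at hw
    omega
  rw [← hn]
  refine IsHomogeneous.mul (isHomogeneous_C (Fin 3) _) ?_
  exact ((e0.pow (d 0)).mul (e1.pow (d 1))).mul (e2.pow (d 2))

/-! ### the chain rule -/

theorem dd_add (p q : R) (v u : V) : dd (p + q) v u = dd p v u + dd q v u := by
  unfold dd
  rw [← Finset.sum_add_distrib]
  refine Finset.sum_congr rfl fun i _ => ?_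
  rw [map_add, map_add]
  ring

theorem dd_mul (p q : R) (v u : V) :
    dd (p * q) v u = dd p v u * eval v q + eval v p * dd q v u := by
  unfold dd
  rw [Finset.sum_mul, Finset.mul_sum, ← Finset.sum_add_distrib]
  refine Finset.sum_congr rfl fun i _ => ?_
  rw [Derivation.leibniz, map_add, smul_eq_mul, smul_eq_mul, map_mul, map_mul]
  ring

theorem dd_C (c : ℂ) (v u : V) : dd (C c) v u = 0 := by
  unfold dd
  refine Finset.sum_eq_zero fun i _ => ?_
  rw [pderiv_C, map_zero, mul_zero]

theorem dd_X (k : Fin 3) (v u : V) : dd (X k) v u = u k := by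
  unfold dd
  rw [Finset.sum_eq_single k]
  · rw [pderiv_X_self, map_one, mul_one]
  · intro j _ hj
    rw [pderiv_X_of_ne (Ne.symm hj), map_zero, mul_zero]
  · intro h
    exact absurd (Finset.mem_univ _) h

theorem eval_comp (g : Fin 3 → R) (a : R) (v : V) :
    eval v (aeval g a) = eval (fun i => eval v (g i)) a := by
  induction a using MvPolynomial.induction_on with
  | C c =>
    rw [aeval_C, eval_C]
    exact eval_C c
  | add p q hp hq => rw [map_add, map_add, map_add, hp, hq]
  | mul_X p k hp => rw [map_mul, map_mul, map_mul, aeval_X, eval_X, hp]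

theorem dd_comp (g : Fin 3 → R) (a : R) (v u : V) :
    dd (aeval g a) v u = dd a (fun i => eval v (g i)) (fun j => dd (g j) v u) := by
  induction a using MvPolynomial.induction_on with
  | C c =>
    rw [aeval_C, dd_C]
    exact dd_C c v u
  | add p q hp hq => rw [map_add, dd_add, dd_add, hp, hq]
  | mul_X p k hp =>
    rw [map_mul, aeval_X, dd_mul, dd_mul, dd_X, hp, eval_X, eval_comp]

/-! ### removing a unit -/

theorem third_mul {E H : R} {v : V} (h0 : eval v H = 0) (h1 : ∀ i, eval v (pderiv i H) = 0)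
    (i j k : Fin 3) :
    eval v (pderiv i (pderiv j (pderiv k (E * H)))) =
      eval v E * eval v (pderiv i (pderiv j (pderiv k H))) +
      eval v (pderiv i E) * eval v (pderiv j (pderiv k H)) +
      eval v (pderiv j E) * eval v (pderiv i (pderiv k H)) +
      eval v (pderiv k E) * eval v (pderiv i (pderiv j H)) := by
  simp only [Derivation.leibniz, smul_eq_mul, map_add, map_mul, h0, h1]
  ring

theorem unit_cusp {E H : R} {v : V} (hE : eval v E ≠ 0) (h : IsCuspVec (E * H) v) :
    IsCuspVec H v := by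
  obtain ⟨k0, k1, k2, u, k3, k4⟩ := h
  have h0 : eval v H = 0 := by
    rw [map_mul] at k0
    exact (mul_eq_zero.mp k0).resolve_left hE
  have h1 : ∀ i, eval v (pderiv i H) = 0 := by
    intro i
    have := k1 i
    rw [Derivation.leibniz, smul_eq_mul, smul_eq_mul, map_add, map_mul, map_mul, h0, zero_mul,
      add_zero] at this
    exact (mul_eq_zero.mp this).resolve_left hE
  have h2 : hess (E * H) v = eval v E • hess H v := by
    ext i j
    unfold hess
    rw [Matrix.smul_apply, Matrix.of_apply, Matrix.of_apply, smul_eq_mul]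
    simp only [Derivation.leibniz, smul_eq_mul, map_add, map_mul, h0, h1]
    ring
  have h3 : (hess H v).mulVec u = 0 := by
    rw [h2, Matrix.smul_mulVec] at k3
    exact (smul_eq_zero.mp k3).resolve_left hE
  refine ⟨h0, h1, ?_, u, h3, ?_⟩
  · rw [h2, Matrix.rank_smul_of_mem_nonZeroDivisors _
      (mem_nonZeroDivisors_of_ne_zero hE)] at k2
    exact k2
  · intro hc
    apply k4
    have hT := third_mul (E := E) h0 h1
    have r : ∀ i, eval v (pderiv i (pderiv 0 H)) * u 0 + eval v (pderiv i (pderiv 1 H)) * u 1 +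
        eval v (pderiv i (pderiv 2 H)) * u 2 = 0 := by
      intro i
      have := congrFun h3 i
      unfold Matrix.mulVec dotProduct hess at this
      simp only [Matrix.of_apply, Fin.sum_univ_three, Pi.zero_apply] at this
      exact this
    have r0 := r 0
    have r1 := r 1
    have r2 := r 2
    have key : cubic (E * H) v u = eval v E * cubic H v u := by
      unfold cubic
      simp only [hT]
      simp only [Fin.sum_univ_three]
      generalize eval v (pderiv 0 (pderiv 0 H)) = A00 at *
      generalize eval v (pderiv 0 (pderiv 1 H)) = A01 at *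
      generalize eval v (pderiv 0 (pderiv 2 H)) = A02 at *
      generalize eval v (pderiv 1 (pderiv 0 H)) = A10 at *
      generalize eval v (pderiv 1 (pderiv 1 H)) = A11 at *
      generalize eval v (pderiv 1 (pderiv 2 H)) = A12 at *
      generalize eval v (pderiv 2 (pderiv 0 H)) = A20 at *
      generalize eval v (pderiv 2 (pderiv 1 H)) = A21 at *
      generalize eval v (pderiv 2 (pderiv 2 H)) = A22 at *
      generalize eval v (pderiv 0 E) = e0 at *
      generalize eval v (pderiv 1 E) = e1 at *
      generalize eval v (pderiv 2 E) = e2 at *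
      generalize u 0 = u0 at *
      generalize u 1 = u1 at *
      generalize u 2 = u2 at *
      linear_combination 3 * (u0 * e0 + u1 * e1 + u2 * e2) * (u0 * r0 + u1 * r1 + u2 * r2)
    rw [key, hc, mul_zero]

/-! ### cusps over cusps -/

theorem tb : Pool.Agent.Helper54.CG.G_P2b := by
  rintro F α β l z ⟨E, a, b, al, be, ga, hF, hE, ha, hb, hal, hga, ⟨u, hu1, hu2⟩, w, hw⟩ hne hz
  have hz0 : z ≠ 0 := by
    rintro rfl
    apply hne
    have : β - l = 0 := by
      rw [← hz]
      ring
    exact sub_eq_zero.mp this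
  set g : Fin 3 → R := ![X 0, X 2 ^ 2 + C l * X 1 ^ 2, X 1] with hg
  have hphi : (fun i => eval (![α, 1, z] : V) (g i)) = ![α, β, 1] := by
    funext i
    fin_cases i
    · simp [hg]
    · simp [hg]
      linear_combination hz
    · simp [hg]
  have hev : ∀ p : R, eval ![α, 1, z] (dbl l p) = eval ![α, β, 1] p := by
    intro p
    rw [dbl, ← hg, eval_comp, hphi]
  have hdir : ∀ u₀ : V, ∃ u' : V, (fun j => dd (g j) ![α, 1, z] u') = u₀ := by
    intro u₀
    refine ⟨![u₀ 0, u₀ 2, (u₀ 1 - 2 * l * u₀ 2) / (2 * z)], ?_⟩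
    funext j
    fin_cases j
    · simp [hg, dd_X]
    · have h1 : (X 2 ^ 2 + C l * X 1 ^ 2 : R) = X 2 * X 2 + C l * (X 1 * X 1) := by ring
      simp only [hg, Fin.mk_one, Matrix.cons_val_one, Matrix.cons_val_zero]
      rw [h1, dd_add, dd_mul, dd_mul, dd_mul, dd_C, dd_X, dd_X, eval_X, eval_C, map_mul, eval_X]
      simp
      field_simp
      ring
    · simp [hg, dd_X]
  have hdd : ∀ (p : R) (u' : V), dd (dbl l p) ![α, 1, z] u' =
      dd p ![α, β, 1] (fun j => dd (g j) ![α, 1, z] u') := by
    intro p u'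
    rw [dbl, ← hg, dd_comp, hphi]
  obtain ⟨u', hu'⟩ := hdir u
  obtain ⟨w', hw'⟩ := hdir w
  have hK : CuspT (dbl l E * dbl l F) ![α, 1, z] := by
    refine ⟨dbl l a, dbl l b, dbl l al, dbl l be, dbl l ga, ?_, ?_, ?_, ?_, ?_, ⟨u', ?_, ?_⟩,
      w', ?_⟩
    · have := congrArg (dbl l) hF
      unfold dbl at this ⊢
      simpa only [map_mul, map_add, map_pow] using this
    · rw [hev]; exact ha
    · rw [hev]; exact hb
    · rw [hev]; exact hal
    · rw [hev]; exact hga
    · rw [hdd, hu']; exact hu1
    · rw [hdd, hu']; exact hu2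
    · rw [hdd, hw']; exact hw
  refine unit_cusp ?_ hK.isCuspVec
  rw [hev]
  exact hE

end Pool.Agent.Helper7.CG.P2ab
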